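import Pool.Agent.Y922.KB.Stm

/-!
# Chains of discs in the annulus (project KB, part CHAIN; by helper153)
-/

set_option autoImplicit false

namespace Pool.Agent.Y153.KB

open Complex Metric Set
open Pool.Agent.Y922.KB

theorem exp_lip (a b : ℝ) : ‖Complex.exp (a * I) - Complex.exp (b * I)‖ ≤ |a - b| := by
  have h1 : Complex.exp (a * I) - Complex.exp (b * I) =
      Complex.exp (b * I) * (Complex.exp (I * ((a - b : ℝ) : ℂ)) - 1) := by
    rw [mul_sub, ← Complex.exp_add, mul_one]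
    congr 2
    push_cast
    ring
  rw [h1, norm_mul, Complex.norm_exp_ofReal_mul_I, one_mul]
  exact Real.norm_exp_I_mul_ofReal_sub_one_le

theorem ball_sub {ε : ℝ} (h0 : 0 < ε) {z : ℂ} (hz : z ∈ Rz ε) : ball z (ε / 8) ⊆ Ann ε := by
  intro u hu
  rw [mem_ball, dist_eq_norm] at hu
  obtain ⟨h1, h2⟩ := hz
  have h3 : ‖u‖ ≤ ‖z‖ + ‖u - z‖ := by
    have := norm_add_le z (u - z)
    rwa [add_sub_cancel] at this
  have h4 : ‖z‖ ≤ ‖u‖ + ‖u - z‖ := by
    have := norm_sub_le u (u - z)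
    rwa [sub_sub_cancel] at this
  exact ⟨by linarith, by linarith⟩

theorem chain (hS : S_STEP) {ε : ℝ} {w : ℂ → ℂ} (h0 : 0 < ε)
    (hw : DifferentiableOn ℂ w (Ann ε)) (hb : ∀ z ∈ Ann ε, ‖w z‖ ≤ 1) (ζ : ℕ → ℂ) (n : ℕ)
    (hR : ∀ i, i ≤ n → ζ i ∈ Rz ε) (hst : ∀ i, i < n → ‖ζ (i + 1) - ζ i‖ ≤ ε / 16) :
    ∀ i, i ≤ n → 1 - ‖w (ζ i)‖ ≤ 3 ^ i * (1 - ‖w (ζ 0)‖) ∧
      ‖w (ζ i) - w (ζ 0)‖ ≤ (3 ^ i - 1) * (1 - ‖w (ζ 0)‖) := by
  intro i
  induction i with
  | zero =>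
    intro _
    constructor
    · simp
    · simp
  | succ i ih =>
    intro hi
    obtain ⟨h1, h2⟩ := ih (by omega)
    have hz := hR i (by omega)
    have hsub := ball_sub h0 hz
    have h3 := hS w (ζ i) (ζ (i + 1)) (ε / 8) (by linarith) (hw.mono hsub)
      (fun u hu => hb u (hsub hu)) (by
        have := hst i (by omega)
        linarith)
    have h4 : ‖w (ζ i)‖ ≤ ‖w (ζ (i + 1))‖ + ‖w (ζ (i + 1)) - w (ζ i)‖ := by
      have := norm_sub_le (w (ζ (i + 1))) (w (ζ (i + 1)) - w (ζ i))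
      rwa [sub_sub_cancel] at this
    have h5 : ‖w (ζ (i + 1)) - w (ζ 0)‖ ≤ ‖w (ζ (i + 1)) - w (ζ i)‖ + ‖w (ζ i) - w (ζ 0)‖ :=
      norm_sub_le_norm_sub_add_norm_sub _ _ _
    constructor
    · rw [pow_succ]
      linarith
    · rw [pow_succ]
      linarith

theorem t_CHAIN : S_CHAIN := by
  intro hS
  refine ⟨226, by norm_num, ?_⟩
  intro ε w h0 h1 hw hb z hz z' hz'
  have hr : 0 ≤ 1 - ‖w z‖ := by
    have h2 : z ∈ Ann ε := ball_sub h0 hz (mem_ball_self (by linarith))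
    linarith [hb z h2]
  -- the path
  obtain ⟨R, hRdef⟩ : ∃ R : ℝ → ℝ, R = fun s => ‖z‖ + s * (‖z'‖ - ‖z‖) := ⟨_, rfl⟩
  obtain ⟨Θ, hΘdef⟩ : ∃ Θ : ℝ → ℝ, Θ = fun s => arg z + s * (arg z' - arg z) := ⟨_, rfl⟩
  obtain ⟨γ, hγ⟩ : ∃ γ : ℝ → ℂ, γ = fun s => (R s : ℂ) * Complex.exp (Θ s * I) := ⟨_, rfl⟩
  have hRb : ∀ s : ℝ, 0 ≤ s → s ≤ 1 → 1 - ε / 2 ≤ R s ∧ R s ≤ 1 - ε / 8 := by
    intro s hs0 hs1
    obtain ⟨a1, a2⟩ := hz
    obtain ⟨b1, b2⟩ := hz'
    have e1 : R s = (1 - s) * ‖z‖ + s * ‖z'‖ := by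
      rw [hRdef]
      ring
    rw [e1]
    constructor
    · nlinarith
    · nlinarith
  have hγn : ∀ s : ℝ, 0 ≤ s → s ≤ 1 → γ s ∈ Rz ε := by
    intro s hs0 hs1
    obtain ⟨a1, a2⟩ := hRb s hs0 hs1
    have h2 : ‖γ s‖ = R s := by
      rw [hγ]
      simp only
      rw [norm_mul, Complex.norm_exp_ofReal_mul_I, mul_one, Complex.norm_real, Real.norm_eq_abs,
        abs_of_nonneg (by linarith)]
    change 1 - ε / 2 ≤ ‖γ s‖ ∧ ‖γ s‖ ≤ 1 - ε / 8
    rw [h2]
    exact ⟨a1, a2⟩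
  have hγ0 : γ 0 = z := by
    rw [hγ, hRdef, hΘdef]
    simp only [zero_mul, add_zero]
    exact Complex.norm_mul_exp_arg_mul_I z
  have hγ1 : γ 1 = z' := by
    rw [hγ, hRdef, hΘdef]
    simp only [one_mul, add_sub_cancel]
    exact Complex.norm_mul_exp_arg_mul_I z'
  have hlip : ∀ s t : ℝ, 0 ≤ t → t ≤ 1 → ‖γ s - γ t‖ ≤ |s - t| * 7 := by
    intro s t ht0 ht1
    obtain ⟨a1, a2⟩ := hRb t ht0 ht1
    have e1 : γ s - γ t = ((R s - R t : ℝ) : ℂ) * Complex.exp (Θ s * I) +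
        (R t : ℂ) * (Complex.exp (Θ s * I) - Complex.exp (Θ t * I)) := by
      rw [hγ]
      push_cast
      ring
    have e2 : ‖((R s - R t : ℝ) : ℂ) * Complex.exp (Θ s * I)‖ ≤ |s - t| * (1 / 4) := by
      rw [norm_mul, Complex.norm_exp_ofReal_mul_I, mul_one, Complex.norm_real, Real.norm_eq_abs]
      have h3 : R s - R t = (s - t) * (‖z'‖ - ‖z‖) := by
        rw [hRdef]
        ring
      rw [h3, abs_mul]
      apply mul_le_mul_of_nonneg_left _ (abs_nonneg _)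
      rw [abs_le]
      obtain ⟨b1, b2⟩ := hz
      obtain ⟨c1, c2⟩ := hz'
      constructor <;> linarith
    have e3 : ‖(R t : ℂ) * (Complex.exp (Θ s * I) - Complex.exp (Θ t * I))‖ ≤
        |s - t| * (2 * Real.pi) := by
      rw [norm_mul, Complex.norm_real, Real.norm_eq_abs, abs_of_nonneg (by linarith)]
      have h3 := exp_lip (Θ s) (Θ t)
      have h4 : Θ s - Θ t = (s - t) * (arg z' - arg z) := by
        rw [hΘdef]
        ring
      rw [h4, abs_mul] at h3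
      have h5 : |arg z' - arg z| ≤ 2 * Real.pi := by
        rw [abs_le]
        have := Complex.arg_le_pi z
        have := Complex.neg_pi_lt_arg z
        have := Complex.arg_le_pi z'
        have := Complex.neg_pi_lt_arg z'
        constructor <;> linarith
      have h6 : |s - t| * |arg z' - arg z| ≤ |s - t| * (2 * Real.pi) :=
        mul_le_mul_of_nonneg_left h5 (abs_nonneg _)
      have h7 : R t * ‖Complex.exp (Θ s * I) - Complex.exp (Θ t * I)‖ ≤
          1 * ‖Complex.exp (Θ s * I) - Complex.exp (Θ t * I)‖ :=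
        mul_le_mul_of_nonneg_right (by linarith) (norm_nonneg _)
      linarith
    rw [e1]
    have h8 := norm_add_le (((R s - R t : ℝ) : ℂ) * Complex.exp (Θ s * I))
      ((R t : ℂ) * (Complex.exp (Θ s * I) - Complex.exp (Θ t * I)))
    have h9 : |s - t| * (1 / 4) + |s - t| * (2 * Real.pi) ≤ |s - t| * 7 := by
      rw [← mul_add]
      apply mul_le_mul_of_nonneg_left _ (abs_nonneg _)
      have := Real.pi_lt_d2
      linarith
    linarith
  -- the number of steps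
  obtain ⟨n, hn⟩ : ∃ n : ℕ, n = ⌈112 / ε⌉₊ := ⟨_, rfl⟩
  have hn1 : 112 / ε ≤ n := by
    rw [hn]
    exact Nat.le_ceil _
  have hn2 : (n : ℝ) ≤ 113 / ε := by
    have h2 : (n : ℝ) < 112 / ε + 1 := by
      rw [hn]
      exact Nat.ceil_lt_add_one (by positivity)
    have h3 : 1 ≤ 1 / ε := by
      rw [le_div_iff₀ h0]
      linarith
    have h4 : 113 / ε = 112 / ε + 1 / ε := by ring
    linarith
  have hnpos : (0 : ℝ) < n := lt_of_lt_of_le (by positivity) hn1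
  have hmain := chain hS h0 hw hb (fun i : ℕ => γ (i / n)) n (fun i hi => by
      apply hγn
      · positivity
      · rw [div_le_one hnpos]
        exact_mod_cast hi) (fun i hi => by
      have h2 : (0 : ℝ) ≤ (i : ℝ) / n := by positivity
      have h3 : (i : ℝ) / n ≤ 1 := by
        rw [div_le_one hnpos]
        exact_mod_cast hi.le
      have h4 := hlip (((i + 1 : ℕ) : ℝ) / n) ((i : ℝ) / n) h2 h3
      have h5 : ((i + 1 : ℕ) : ℝ) / n - (i : ℝ) / n = 1 / n := by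
        push_cast
        ring
      rw [h5, abs_of_pos (by positivity)] at h4
      have h6 : 1 / (n : ℝ) * 7 ≤ ε / 16 := by
        rw [div_le_iff₀ h0] at hn1
        rw [div_mul_eq_mul_div, div_le_div_iff₀ hnpos (by norm_num)]
        linarith
      exact h4.trans h6) n le_rfl
  simp only [Nat.cast_zero, zero_div, div_self hnpos.ne', hγ0, hγ1] at hmain
  have h3e : (3 : ℝ) ^ n ≤ Real.exp (226 / ε) := by
    have h2 : (3 : ℝ) ≤ Real.exp 2 := by
      have h4 := Real.exp_one_gt_d9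
      have h5 : Real.exp 2 = Real.exp 1 * Real.exp 1 := by
        rw [← Real.exp_add]
        norm_num
      rw [h5]
      nlinarith
    calc (3 : ℝ) ^ n ≤ (Real.exp 2) ^ n := pow_le_pow_left₀ (by norm_num) h2 n
      _ = Real.exp (n * 2) := by rw [← Real.exp_nat_mul]
      _ ≤ Real.exp (226 / ε) := by
        apply Real.exp_le_exp.2
        have h4 : 226 / ε = 113 / ε * 2 := by ring
        rw [h4]
        linarith
  obtain ⟨m1, m2⟩ := hmain
  have h7 : (3 : ℝ) ^ n * (1 - ‖w z‖) ≤ Real.exp (226 / ε) * (1 - ‖w z‖) :=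
    mul_le_mul_of_nonneg_right h3e hr
  constructor
  · exact m1.trans h7
  · have h8 : ((3 : ℝ) ^ n - 1) * (1 - ‖w z‖) ≤ 3 ^ n * (1 - ‖w z‖) := by
      apply mul_le_mul_of_nonneg_right _ hr
      linarith
    exact (m2.trans h8).trans h7

end Pool.Agent.Y153.KB
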